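import Mathlib
import Pool.Agent.Helper75.UF.Defs
import Pool.Agent.Helper75.UF.P_main

set_option autoImplicit false

namespace Pool.Agent.Results.MP_c1d0cb_al.NormallyHereditary

open Pool.Agent.Helper75.UF

/-- Unique factorisation: the subsemigroup generated by the indecomposable formations that are
closed under normal subgroups is freely generated by them. -/
theorem result (l l' : List GroupClass)
    (hl : ∀ F ∈ l, Indecomposable F ∧ NormallyHereditary F)
    (hl' : ∀ F ∈ l', Indecomposable F ∧ NormallyHereditary F)
    (h : listProd l = listProd l') : l = l' :=
  main l l' hl hl' h

end Pool.Agent.Results.MP_c1d0cb_al.NormallyHereditary
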